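import Pool.Agent.L5helper86.RB.Base

/-!
# Bounds for sums over windows from bounds for dyadic blocks
-/

set_option autoImplicit false

namespace Pool.Agent.L5helper86.RB

open Finset

lemma window_pow (f : ℕ → ℝ) (c C : ℝ) (N0 : ℕ)
    (h1 : ∀ N, N0 ≤ N → c ≤ ∑ n ∈ op N, f n) (h2 : ∀ N, N0 ≤ N → ∑ n ∈ op N, f n ≤ C)
    (x : ℕ) (hx : N0 ≤ x) (k : ℕ) :
    k * c ≤ ∑ n ∈ (Ioc x (2 ^ k * x)).filter (fun n => n.Prime ∧ n ≠ 2), f n ∧
    ∑ n ∈ (Ioc x (2 ^ k * x)).filter (fun n => n.Prime ∧ n ≠ 2), f n ≤ k * C := by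
  induction k with
  | zero => simp
  | succ k ih =>
    have hle : x ≤ 2 ^ k * x := Nat.le_mul_of_pos_left x (by positivity)
    have hle2 : 2 ^ k * x ≤ 2 ^ (k + 1) * x := Nat.mul_le_mul_right x (Nat.pow_le_pow_right two_pos (Nat.le_succ k))
    have e : ∑ n ∈ (Ioc x (2 ^ (k + 1) * x)).filter (fun n => n.Prime ∧ n ≠ 2), f n
        = ∑ n ∈ (Ioc x (2 ^ k * x)).filter (fun n => n.Prime ∧ n ≠ 2), f n + ∑ n ∈ op (2 ^ k * x), f n := by
      rw [op, sum_filter, sum_filter, sum_filter, show 2 * (2 ^ k * x) = 2 ^ (k + 1) * x by ring,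
        sum_Ioc_consecutive _ hle hle2]
    have a1 := h1 (2 ^ k * x) (hx.trans hle)
    have a2 := h2 (2 ^ k * x) (hx.trans hle)
    rw [e]
    push_cast
    constructor
    · linarith [ih.1]
    · linarith [ih.2]

theorem window_bounds (f : ℕ → ℝ) (hf : ∀ n, 0 ≤ f n) (c C : ℝ) (hc : 0 < c) (hC : 0 < C) (N0 : ℕ)
    (h1 : ∀ N, N0 ≤ N → c ≤ ∑ n ∈ op N, f n) (h2 : ∀ N, N0 ≤ N → ∑ n ∈ op N, f n ≤ C) :
    ∃ c' C' : ℝ, 0 < c' ∧ 0 < C' ∧ ∃ x0 : ℕ, 1 ≤ x0 ∧ ∀ x x' : ℕ, x0 ≤ x → x ≤ x' →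
      c' * Real.log ((x' : ℝ) / x) - C' ≤ ∑ n ∈ (Ioc x x').filter (fun n => n.Prime ∧ n ≠ 2), f n ∧
      ∑ n ∈ (Ioc x x').filter (fun n => n.Prime ∧ n ≠ 2), f n ≤ C' * Real.log ((x' : ℝ) / x) + C' := by
  have hl : 0 < Real.log 2 := Real.log_pos one_lt_two
  refine ⟨c / Real.log 2, c + C / Real.log 2 + C, div_pos hc hl, by positivity, max N0 1,
    le_max_right _ _, fun x x' hx hxx => ?_⟩
  have hx0 : N0 ≤ x := (le_max_left _ _).trans hx
  have hx1 : 0 < x := (le_max_right _ _).trans hx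
  obtain ⟨k, hk1, hk2⟩ : ∃ k : ℕ, 2 ^ k * x ≤ x' ∧ x' < 2 ^ (k + 1) * x := by
    refine ⟨Nat.log 2 (x' / x), ?_, ?_⟩
    · have h := Nat.pow_log_le_self 2 (x := x' / x) (Nat.div_pos hxx hx1).ne'
      exact (Nat.le_div_iff_mul_le hx1).1 h
    · have h := Nat.lt_pow_succ_log_self one_lt_two (x' / x)
      exact (Nat.div_lt_iff_lt_mul hx1).1 h
  have hxr : (0 : ℝ) < x := by exact_mod_cast hx1
  have hk1' : (2 : ℝ) ^ k ≤ (x' : ℝ) / x := by
    rw [le_div_iff₀ hxr]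
    exact_mod_cast hk1
  have hk2' : (x' : ℝ) / x ≤ (2 : ℝ) ^ (k + 1) := by
    rw [div_le_iff₀ hxr]
    exact_mod_cast hk2.le
  have hq : 0 < (x' : ℝ) / x := lt_of_lt_of_le (by positivity) hk1'
  have l1 : k * Real.log 2 ≤ Real.log ((x' : ℝ) / x) := by
    rw [← Real.log_pow]
    exact Real.log_le_log (by positivity) hk1'
  have l2 : Real.log ((x' : ℝ) / x) ≤ (k + 1) * Real.log 2 := by
    have h := Real.log_le_log hq hk2'
    rw [Real.log_pow] at h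
    push_cast at h
    exact h
  have l0 : 0 ≤ Real.log ((x' : ℝ) / x) := le_trans (by positivity) l1
  obtain ⟨b1, -⟩ := window_pow f c C N0 h1 h2 x hx0 k
  obtain ⟨-, b2⟩ := window_pow f c C N0 h1 h2 x hx0 (k + 1)
  push_cast at b2
  constructor
  · have s1 : ∑ n ∈ (Ioc x (2 ^ k * x)).filter (fun n => n.Prime ∧ n ≠ 2), f n
        ≤ ∑ n ∈ (Ioc x x').filter (fun n => n.Prime ∧ n ≠ 2), f n :=
      sum_le_sum_of_subset_of_nonneg (filter_subset_filter _ (Ioc_subset_Ioc_right hk1))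
        (fun n _ _ => hf n)
    have s2 : c / Real.log 2 * Real.log ((x' : ℝ) / x) ≤ c * (k + 1) := by
      rw [div_mul_eq_mul_div, div_le_iff₀ hl]
      calc c * Real.log ((x' : ℝ) / x) ≤ c * ((k + 1) * Real.log 2) := by gcongr
        _ = c * (k + 1) * Real.log 2 := by ring
    have s3 : 0 < C / Real.log 2 := by positivity
    linarith
  · have s1 : ∑ n ∈ (Ioc x x').filter (fun n => n.Prime ∧ n ≠ 2), f n
        ≤ ∑ n ∈ (Ioc x (2 ^ (k + 1) * x)).filter (fun n => n.Prime ∧ n ≠ 2), f n :=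
      sum_le_sum_of_subset_of_nonneg (filter_subset_filter _ (Ioc_subset_Ioc_right hk2.le))
        (fun n _ _ => hf n)
    have s2 : C * k ≤ C / Real.log 2 * Real.log ((x' : ℝ) / x) := by
      rw [div_mul_eq_mul_div, le_div_iff₀ hl]
      calc C * k * Real.log 2 = C * (k * Real.log 2) := by ring
        _ ≤ C * Real.log ((x' : ℝ) / x) := by gcongr
    have s3 : 0 ≤ (c + C) * Real.log ((x' : ℝ) / x) := by positivity
    have s4 : 0 < C / Real.log 2 := by positivity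
    have e : (c + C / Real.log 2 + C) * Real.log ((x' : ℝ) / x)
        = C / Real.log 2 * Real.log ((x' : ℝ) / x) + (c + C) * Real.log ((x' : ℝ) / x) := by ring
    rw [e]
    linarith

end Pool.Agent.L5helper86.RB
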