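import Pool.Agent.L5helper9.RB.In0
import Pool.Agent.L5helper64.RB.Br

/-!
# The law for the integers below `B`
-/

set_option autoImplicit false

open Finset

namespace Pool.Agent.L5helper86.RB

lemma in_pow_le (x : ℕ) : ((x : ℝ) + 1) ^ 2 ≤ 4 ^ x := by
  have h : x + 1 ≤ 2 ^ x := Nat.lt_two_pow_self
  have h1 : (x : ℝ) + 1 ≤ 2 ^ x := by exact_mod_cast h
  calc ((x : ℝ) + 1) ^ 2 ≤ (2 ^ x) ^ 2 := by gcongr
    _ = 4 ^ x := by rw [← pow_mul, mul_comm, pow_mul]; norm_num

lemma in_fact {k : ℕ} {T : ℝ} (hT0 : 0 ≤ T) (hk : 9 * T ≤ k) : T ^ k / k.factorial ≤ (1 / 3) ^ k := by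
  have h1 : T ≤ k / 9 := by linarith
  have h2 := Real.pow_div_factorial_le_exp (k : ℝ) (Nat.cast_nonneg k) k
  have hf : (0 : ℝ) < k.factorial := by exact_mod_cast k.factorial_pos
  calc T ^ k / k.factorial ≤ ((k : ℝ) / 9) ^ k / k.factorial := by gcongr
    _ = (1 / 9) ^ k * ((k : ℝ) ^ k / k.factorial) := by
        rw [div_pow, div_pow, one_pow]
        ring
    _ ≤ (1 / 9) ^ k * Real.exp k := by gcongr
    _ = (1 / 9 * Real.exp 1) ^ k := by
        rw [mul_pow, ← Real.exp_nat_mul, mul_one]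
    _ ≤ (1 / 3) ^ k := by
        have := Real.exp_one_lt_d9
        gcongr
        linarith

lemma in_close {θ : ℝ} (hθ : 0 < θ) : ∃ C : ℝ, 4 ≤ C ∧ ∀ x : ℕ, 1 ≤ x → ∀ B : ℕ,
    Real.exp (C * (x : ℝ) ^ 2) ≤ B → ∀ z : ℝ, z ≤ Real.exp (θ * x) → ∀ R : ℕ → Finset ℕ,
    (∀ p, R p ⊆ range p) → ∑ p ∈ pz z, (#(R p) : ℝ) / p ≤ 2 * (θ * x + 2) →
    |(#((range B).filter fun b => ∀ p ∈ pz z, b % p ∉ R p) : ℝ) -
      B * ∏ p ∈ pz z, (1 - (#(R p) : ℝ) / p)| ≤ B * (1 / ((x : ℝ) + 1) ^ 2) := by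
  set a : ℝ := 2 * θ + 4 with ha
  have ha4 : 4 ≤ a := by linarith
  refine ⟨2 * (θ + 1) * (9 * a + 2) + 3, by nlinarith, ?_⟩
  intro x hx B hB z hz R hR hT
  have hx1 : (1 : ℝ) ≤ x := by exact_mod_cast hx
  have hBp : (0 : ℝ) < B := lt_of_lt_of_le (Real.exp_pos _) hB
  have hBn : 0 < B := by exact_mod_cast hBp
  set k : ℕ := ⌈9 * (a * x)⌉₊ with hk
  have hk1 : 9 * (a * x) ≤ k := Nat.le_ceil _
  have hk2 : (k : ℝ) ≤ 9 * (a * x) + 1 := (Nat.ceil_lt_add_one (by positivity)).le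
  have hk0 : 3 * x ≤ k := by
    have h1 : (3 : ℝ) * x ≤ k := by nlinarith
    exact_mod_cast h1
  obtain ⟨r, hr⟩ : ∃ r, k = r + 1 := ⟨k - 1, by omega⟩
  set Z : ℕ := ⌊Real.exp (θ * x)⌋₊ with hZ
  have hbr := brun (pz z) (fun p hp => (mem_pz.1 hp).1) Z
    (fun p hp => Nat.le_floor ((mem_pz.1 hp).2.trans hz)) R (fun p _ => hR p) r B hBn
  have hT0 : 0 ≤ ∑ p ∈ pz z, (#(R p) : ℝ) / p := sum_nonneg fun _ _ => by positivity
  have ht1 : 2 * (∑ p ∈ pz z, (#(R p) : ℝ) / p) ^ (r + 1) / (r + 1).factorial ≤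
      1 / (2 * ((x : ℝ) + 1) ^ 2) := by
    rw [← hr, mul_div_assoc]
    have h1 : 9 * ∑ p ∈ pz z, (#(R p) : ℝ) / p ≤ k := by
      refine le_trans ?_ hk1
      have : 2 * (θ * x + 2) ≤ a * x := by
        rw [ha]
        nlinarith
      linarith
    have h2 := in_fact hT0 h1
    have h3 : ((1 : ℝ) / 3) ^ k ≤ 1 / 3 ^ (3 * x) := by
      rw [div_pow, one_pow]
      exact one_div_le_one_div_of_le (by positivity) (pow_le_pow_right₀ (by norm_num) hk0)
    have h4 : 4 * ((x : ℝ) + 1) ^ 2 ≤ 3 ^ (3 * x) := by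
      calc 4 * ((x : ℝ) + 1) ^ 2 ≤ 4 ^ x * 4 ^ x := by
            refine mul_le_mul ?_ (in_pow_le x) (by positivity) (by positivity)
            exact le_self_pow₀ (by norm_num) (by omega)
        _ = 16 ^ x := by rw [← mul_pow]; norm_num
        _ ≤ 27 ^ x := by gcongr; norm_num
        _ = 3 ^ (3 * x) := by rw [pow_mul]; norm_num
    calc 2 * ((∑ p ∈ pz z, (#(R p) : ℝ) / p) ^ k / k.factorial) ≤ 2 * (1 / 3 ^ (3 * x)) := by
          linarith
      _ ≤ 2 * (1 / (4 * ((x : ℝ) + 1) ^ 2)) := by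
          have := one_div_le_one_div_of_le (by positivity) h4
          linarith
      _ = 1 / (2 * ((x : ℝ) + 1) ^ 2) := by
          field_simp
          norm_num
  have ht2 : ((Z : ℝ) + 1) ^ (2 * (r + 2)) / B ≤ 1 / (2 * ((x : ℝ) + 1) ^ 2) := by
    have e : 2 * (r + 2) = 2 * (k + 1) := by omega
    rw [e, div_le_div_iff₀ hBp (by positivity), one_mul]
    have h1 : (Z : ℝ) + 1 ≤ Real.exp ((θ + 1) * x) := by
      have h2 : (Z : ℝ) ≤ Real.exp (θ * x) := Nat.floor_le (Real.exp_pos _).le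
      have h3 : 1 ≤ Real.exp (θ * x) := Real.one_le_exp (by positivity)
      have h4 : 2 ≤ Real.exp x := by
        have := Real.add_one_le_exp (x : ℝ)
        linarith
      have h5 : Real.exp ((θ + 1) * x) = Real.exp (θ * x) * Real.exp x := by
        rw [← Real.exp_add]
        congr 1
        ring
      rw [h5]
      nlinarith
    have h6 : ((Z : ℝ) + 1) ^ (2 * (k + 1)) ≤ Real.exp (2 * (θ + 1) * (9 * a + 2) * (x : ℝ) ^ 2) := by
      calc ((Z : ℝ) + 1) ^ (2 * (k + 1)) ≤ Real.exp ((θ + 1) * x) ^ (2 * (k + 1)) := by gcongr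
        _ = Real.exp (((2 * (k + 1) : ℕ) : ℝ) * ((θ + 1) * x)) := (Real.exp_nat_mul _ _).symm
        _ ≤ _ := by
            apply Real.exp_le_exp.2
            push_cast
            have h7 : (k : ℝ) + 1 ≤ (9 * a + 2) * x := by nlinarith
            calc 2 * ((k : ℝ) + 1) * ((θ + 1) * x) ≤ 2 * ((9 * a + 2) * x) * ((θ + 1) * x) := by gcongr
              _ = _ := by ring
    have h8 : 2 * ((x : ℝ) + 1) ^ 2 ≤ Real.exp (3 * (x : ℝ) ^ 2) := by
      calc 2 * ((x : ℝ) + 1) ^ 2 ≤ 2 ^ x * 4 ^ x := by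
            refine mul_le_mul ?_ (in_pow_le x) (by positivity) (by positivity)
            exact le_self_pow₀ (by norm_num) (by omega)
        _ = 8 ^ x := by rw [← mul_pow]; norm_num
        _ ≤ (Real.exp 1 ^ 3) ^ x := by
            have := Real.exp_one_gt_d9
            have h9 : (8 : ℝ) ≤ Real.exp 1 ^ 3 := by
              calc (8 : ℝ) = 2 ^ 3 := by norm_num
                _ ≤ Real.exp 1 ^ 3 := by gcongr; linarith
            gcongr
        _ = Real.exp (3 * x) := by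
            rw [← pow_mul, ← Real.exp_nat_mul]
            push_cast
            ring_nf
        _ ≤ Real.exp (3 * (x : ℝ) ^ 2) := by
            apply Real.exp_le_exp.2
            nlinarith
    calc ((Z : ℝ) + 1) ^ (2 * (k + 1)) * (2 * ((x : ℝ) + 1) ^ 2) ≤
        Real.exp (2 * (θ + 1) * (9 * a + 2) * (x : ℝ) ^ 2) * Real.exp (3 * (x : ℝ) ^ 2) := by gcongr
      _ = Real.exp ((2 * (θ + 1) * (9 * a + 2) + 3) * (x : ℝ) ^ 2) := by
          rw [← Real.exp_add]
          congr 1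
          ring
      _ ≤ B := hB
  have hsum : 1 / (2 * ((x : ℝ) + 1) ^ 2) + 1 / (2 * ((x : ℝ) + 1) ^ 2) = 1 / ((x : ℝ) + 1) ^ 2 := by
    field_simp
    norm_num
  have hfin : |(#((range B).filter fun b => ∀ p ∈ pz z, b % p ∉ R p) : ℝ) / B -
      ∏ p ∈ pz z, (1 - (#(R p) : ℝ) / p)| ≤ 1 / ((x : ℝ) + 1) ^ 2 := by
    refine hbr.trans ?_
    rw [← hsum]
    exact add_le_add ht1 ht2
  have e2 : (#((range B).filter fun b => ∀ p ∈ pz z, b % p ∉ R p) : ℝ) -
      B * ∏ p ∈ pz z, (1 - (#(R p) : ℝ) / p) =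
      B * ((#((range B).filter fun b => ∀ p ∈ pz z, b % p ∉ R p) : ℝ) / B -
      ∏ p ∈ pz z, (1 - (#(R p) : ℝ) / p)) := by
    field_simp
  rw [e2, abs_mul, abs_of_pos hBp]
  exact mul_le_mul_of_nonneg_left hfin hBp.le

lemma Pn_le_one {z : ℝ} {n : ℕ} : Pn z n ≤ 1 := by
  unfold Pn
  refine prod_le_one (fun p hp => ?_) fun p hp => ?_
  · have hp1 := (mem_pz.1 hp).1
    have hp0 : (0 : ℝ) < p := by exact_mod_cast hp1.pos
    have h1 : #(rts p n) ≤ p := by
      have := card_le_card (rts_sub p n)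
      rwa [card_range] at this
    have h2 : (#(rts p n) : ℝ) / p ≤ 1 := by
      rw [div_le_one hp0]
      exact_mod_cast h1
    linarith
  · have : (0 : ℝ) ≤ (#(rts p n) : ℝ) / p := by positivity
    linarith

open Classical in
theorem integers2 {θ : ℝ} (hθ : 0 < θ) : ∃ C : ℝ, 0 < C ∧ ∀ S : Set ℕ, (∀ n ∈ S, n.Prime ∧ n ≠ 2) →
    ∀ x : ℕ, 1 ≤ x → 1 ≤ EE θ S x → ∀ ε : ℝ, 0 < ε → ∀ B : ℕ, Real.exp (C * (x : ℝ) ^ 2) ≤ B →
    (#((range B).filter fun b => ε * EE θ S x ≤ |(cnt θ (fun _ => b) S x : ℝ) - EE θ S x|) : ℝ) ≤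
      C * B / (ε ^ 2 * EE θ S x) := by
  obtain ⟨C, hC4, hC⟩ := in_close hθ
  refine ⟨C, by linarith, ?_⟩
  intro S hS x hx hE1 ε hε B hB
  set I : ℕ → ℕ → ℝ := fun n b => if n ∈ S ∧ Sv (Real.exp (θ * n)) (fun _ => b) n then 1 else 0 with hI
  set p : ℕ → ℝ := S.indicator (fun n : ℕ => Pn (Real.exp (θ * n)) n) with hp
  have hpin : ∀ n ∈ S, p n = Pn (Real.exp (θ * n)) n := fun n hn => Set.indicator_of_mem hn _
  have hpout : ∀ n, n ∉ S → p n = 0 := fun n hn => Set.indicator_of_notMem hn _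
  have hcnt : ∀ b, (cnt θ (fun _ => b) S x : ℝ) = ∑ n ∈ range (x + 1), I n b := by
    intro b
    unfold cnt
    rw [card_filter]
    push_cast
    rfl
  have hT1 : ∀ n ∈ S, n ≤ x → ∑ q ∈ pz (Real.exp (θ * n)), (#(rts q n) : ℝ) / q ≤ θ * x + 2 := by
    intro n hn hnx
    have h1 := sum_rts_le (hS n hn).1 (hS n hn).2 (z := Real.exp (θ * n)) (Real.one_le_exp (by positivity))
    rw [Real.log_exp] at h1
    have h2 : θ * (n : ℝ) ≤ θ * x := mul_le_mul_of_nonneg_left (by exact_mod_cast hnx) hθ.le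
    linarith
  have hexp : ∀ n : ℕ, n ≤ x → Real.exp (θ * n) ≤ Real.exp (θ * x) := fun n hn =>
    Real.exp_le_exp.2 (mul_le_mul_of_nonneg_left (by exact_mod_cast hn) hθ.le)
  have h1 : ∀ n < x + 1, |∑ b ∈ range B, I n b - B * p n| ≤ B * (1 / ((x : ℝ) + 1) ^ 2) := by
    intro n hn
    by_cases hnS : n ∈ S
    · have h2 := hC x hx B hB (Real.exp (θ * n)) (hexp n (by omega)) (fun q => rts q n)
        (fun q => rts_sub q n) (by
          have := hT1 n hnS (by omega)
          have h3 : 0 ≤ θ * (x : ℝ) := by positivity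
          linarith)
      rw [hpin n hnS]
      have e : ∑ b ∈ range B, I n b =
          (#((range B).filter fun b => ∀ q ∈ pz (Real.exp (θ * n)), b % q ∉ rts q n) : ℝ) := by
        rw [card_filter]
        push_cast
        refine sum_congr rfl fun b _ => ?_
        simp only [hI]
        refine if_congr ?_ rfl rfl
        rw [and_iff_right hnS, Sv_const_iff]
      rw [e]
      exact h2
    · rw [hpout n hnS]
      have e : ∀ b, I n b = 0 := fun b => if_neg fun h => hnS h.1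
      simp only [e, sum_const_zero, mul_zero, sub_zero, abs_zero]
      positivity
  have h2' : ∀ n < x + 1, ∀ m < x + 1, n < m →
      ∑ b ∈ range B, I n b * I m b ≤ B * (p n * p m + 1 / ((x : ℝ) + 1) ^ 2) := by
    intro n hn m hm hnm
    have hzero : (∀ b, I n b * I m b = 0) → p n * p m = 0 →
        ∑ b ∈ range B, I n b * I m b ≤ B * (p n * p m + 1 / ((x : ℝ) + 1) ^ 2) := by
      intro h3 h4
      simp only [h3, h4, sum_const_zero, zero_add]
      positivity
    by_cases hnS : n ∈ S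
    · by_cases hmS : m ∈ S
      · have hz : Real.exp (θ * n) ≤ Real.exp (θ * m) :=
          Real.exp_le_exp.2 (mul_le_mul_of_nonneg_left (by exact_mod_cast hnm.le) hθ.le)
        have h3 := hC x hx B hB (Real.exp (θ * m)) (hexp m (by omega))
          (fun q => RR (Real.exp (θ * n)) n m q) (fun q => RR_sub _ n m q) (by
            refine (sum_RR_le hz).trans ?_
            have := hT1 n hnS (by omega)
            have := hT1 m hmS (by omega)
            linarith)
        have h4 := prod_RR_le (n := n) (m := m) hz fun q hq b =>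
          rts_disj (hS n hnS).1 (hS n hnS).2 (hS m hmS).1 (hS m hmS).2 hnm.ne hq b
        rw [hpin n hnS, hpin m hmS]
        have e : ∑ b ∈ range B, I n b * I m b =
            (#((range B).filter fun b => ∀ q ∈ pz (Real.exp (θ * m)), b % q ∉ RR (Real.exp (θ * n)) n m q) : ℝ) := by
          rw [card_filter]
          push_cast
          refine sum_congr rfl fun b _ => ?_
          simp only [hI]
          rw [ite_zero_mul_ite_zero, mul_one]
          refine if_congr ?_ rfl rfl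
          rw [and_iff_right hnS, and_iff_right hmS, Sv_const_iff2 hz]
        rw [e]
        have h5 := (abs_le.1 h3).2
        have h6 : (B : ℝ) * ∏ q ∈ pz (Real.exp (θ * m)), (1 - (#(RR (Real.exp (θ * n)) n m q) : ℝ) / q) ≤
            B * (Pn (Real.exp (θ * n)) n * Pn (Real.exp (θ * m)) m) :=
          mul_le_mul_of_nonneg_left h4 (Nat.cast_nonneg B)
        linarith
      · exact hzero (fun b => by
          have : I m b = 0 := if_neg fun h => hmS h.1
          rw [this, mul_zero]) (by rw [hpout m hmS, mul_zero])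
    · exact hzero (fun b => by
          have : I n b = 0 := if_neg fun h => hnS h.1
          rw [this, zero_mul]) (by rw [hpout n hnS, zero_mul])
  have h2 : ∀ n < x + 1, ∀ m < x + 1, n ≠ m →
      ∑ b ∈ range B, I n b * I m b ≤ B * (p n * p m + 1 / ((x : ℝ) + 1) ^ 2) := by
    intro n hn m hm hnm
    rcases lt_or_gt_of_ne hnm with h3 | h3
    · exact h2' n hn m hm h3
    · have h4 := h2' m hm n hn h3
      rw [mul_comm (p n)]
      simp_rw [mul_comm (I n _)]
      exact h4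
  have hmain := second_count B (x + 1) I (fun n b => by
      simp only [hI]
      split_ifs <;> simp) p (fun n => by
      by_cases hn : n ∈ S
      · rw [hpin n hn]
        exact Pn_le_one
      · rw [hpout n hn]
        exact zero_le_one) (fun n => ind_nonneg θ S n) (1 / ((x : ℝ) + 1) ^ 2) (by positivity)
      (by
        push_cast
        rw [one_div, inv_mul_cancel₀ (by positivity)]) h1 h2 (EE θ S x) (EE_eq θ S x) hE1 ε hε
  simp_rw [hcnt]
  refine hmain.trans ?_
  have hE0 : 0 < EE θ S x := by linarith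
  gcongr

end Pool.Agent.L5helper86.RB
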