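import Pool.Agent.L5helper86.RB.Fin

/-!
# The law for the integers below `B`: counting lemmas
-/

set_option autoImplicit false

open Finset

namespace Pool.Agent.L5helper86.RB

lemma sum_rts_le {n : ℕ} (hn : n.Prime) (hn2 : n ≠ 2) {z : ℝ} (hz : 1 ≤ z) :
    ∑ p ∈ pz z, (#(rts p n) : ℝ) / p ≤ Real.log z + 2 := by
  classical
  have h1 : ∀ p ∈ pz z, (#(rts p n) : ℝ) / p ≤
      (if p = n then (1 : ℝ) else 0) + (if p % n = 1 then (((p / n : ℕ) : ℝ))⁻¹ else 0) := by
    intro p hp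
    have hp1 := (mem_pz.1 hp).1
    have hp0 : (0 : ℝ) < p := by exact_mod_cast hp1.pos
    rw [card_rts hn hn2 hp1]
    by_cases e1 : p = n
    · rw [if_pos e1, if_pos e1]
      have h2 : ((1 : ℕ) : ℝ) / p ≤ 1 := by
        rw [Nat.cast_one, div_le_one hp0]
        exact_mod_cast hp1.one_lt.le
      have h3 : (0 : ℝ) ≤ (if p % n = 1 then (((p / n : ℕ) : ℝ))⁻¹ else 0) := by
        split_ifs <;> positivity
      linarith
    · rw [if_neg e1, if_neg e1, zero_add]
      by_cases e2 : p % n = 1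
      · rw [if_pos e2, if_pos e2]
        have h3 := Nat.div_add_mod p n
        rw [e2] at h3
        have hj : 0 < p / n := by
          rcases Nat.eq_zero_or_pos (p / n) with h4 | h4
          · rw [h4, mul_zero, zero_add] at h3
            exact absurd h3.symm hp1.one_lt.ne'
          · exact h4
        have hj0 : (0 : ℝ) < ((p / n : ℕ) : ℝ) := by exact_mod_cast hj
        rw [div_le_iff₀ hp0, inv_mul_eq_div, le_div_iff₀ hj0]
        have h5 : (n - 1) * (p / n) ≤ p := by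
          calc (n - 1) * (p / n) ≤ n * (p / n) := Nat.mul_le_mul_right _ (Nat.sub_le _ _)
            _ ≤ p := Nat.mul_div_le p n
        exact_mod_cast h5
      · rw [if_neg e2, if_neg e2]
        simp
  refine (sum_le_sum h1).trans ?_
  rw [sum_add_distrib]
  have h2 : ∑ p ∈ pz z, (if p = n then (1 : ℝ) else 0) ≤ 1 := by
    rw [sum_ite_eq']
    split_ifs <;> norm_num
  have h3 : ∑ p ∈ pz z, (if p % n = 1 then (((p / n : ℕ) : ℝ))⁻¹ else 0) ≤ 1 + Real.log z := by
    rw [← sum_filter]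
    have h4 : ∑ p ∈ (pz z).filter (fun p => p % n = 1), (((p / n : ℕ) : ℝ))⁻¹
        = ∑ j ∈ ((pz z).filter (fun p => p % n = 1)).image (fun p => p / n), ((j : ℕ) : ℝ)⁻¹ := by
      rw [sum_image]
      intro a ha b hb hab
      have ha2 := (mem_filter.1 ha).2
      have hb2 := (mem_filter.1 hb).2
      have ha3 := Nat.div_add_mod a n
      have hb3 := Nat.div_add_mod b n
      simp only at hab
      rw [ha2] at ha3
      rw [hb2] at hb3
      rw [← ha3, ← hb3, hab]
    rw [h4]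
    have h5 : ((pz z).filter (fun p => p % n = 1)).image (fun p => p / n) ⊆ Icc 1 ⌊z⌋₊ := by
      intro j hj
      obtain ⟨p, hp, rfl⟩ := mem_image.1 hj
      rw [mem_filter] at hp
      have hp1 := (mem_pz.1 hp.1).1
      have h3 := Nat.div_add_mod p n
      rw [hp.2] at h3
      rw [mem_Icc]
      constructor
      · rcases Nat.eq_zero_or_pos (p / n) with h4 | h4
        · rw [h4, mul_zero, zero_add] at h3
          exact absurd h3.symm hp1.one_lt.ne'
        · exact h4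
      · exact (Nat.div_le_self p n).trans (Nat.le_floor (mem_pz.1 hp.1).2)
    refine (sum_le_sum_of_subset_of_nonneg h5 fun _ _ _ => by positivity).trans ?_
    have h6 := harmonic_le_one_add_log ⌊z⌋₊
    rw [harmonic_eq_sum_Icc] at h6
    push_cast at h6
    refine h6.trans ?_
    have h7 : 1 ≤ ⌊z⌋₊ := Nat.le_floor (by simpa using hz)
    have h8 : Real.log ((⌊z⌋₊ : ℕ) : ℝ) ≤ Real.log z :=
      Real.log_le_log (by exact_mod_cast h7) (Nat.floor_le (by linarith))
    linarith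
  linarith

/-- the sets of residues for two numbers -/
def RR (z : ℝ) (n m p : ℕ) [Decidable ((p : ℝ) ≤ z)] : Finset ℕ :=
  (if (p : ℝ) ≤ z then rts p n else ∅) ∪ rts p m

open Classical in
lemma RR_sub (z : ℝ) (n m p : ℕ) : RR z n m p ⊆ range p := by
  unfold RR
  refine union_subset ?_ (rts_sub p m)
  split_ifs
  · exact rts_sub p n
  · simp

open Classical in
lemma sum_RR_le {n m : ℕ} {z z' : ℝ} (hz : z ≤ z') :
    ∑ p ∈ pz z', (#(RR z n m p) : ℝ) / p ≤
      ∑ p ∈ pz z, (#(rts p n) : ℝ) / p + ∑ p ∈ pz z', (#(rts p m) : ℝ) / p := by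
  have hsub : pz z ⊆ pz z' := fun p hp => by
    rw [mem_pz] at hp ⊢
    exact ⟨hp.1, hp.2.trans hz⟩
  have h1 : ∑ p ∈ pz z, (#(rts p n) : ℝ) / p =
      ∑ p ∈ pz z', (#(if (p : ℝ) ≤ z then rts p n else ∅) : ℝ) / p := by
    rw [← sum_subset hsub fun p hp hp' => ?_]
    · refine sum_congr rfl fun p hp => ?_
      rw [if_pos (mem_pz.1 hp).2]
    · rw [if_neg fun h3 => hp' (mem_pz.2 ⟨(mem_pz.1 hp).1, h3⟩)]
      simp
  rw [h1, ← sum_add_distrib]
  refine sum_le_sum fun p _ => ?_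
  rw [← add_div]
  refine div_le_div_of_nonneg_right ?_ (Nat.cast_nonneg p)
  have := card_union_le (if (p : ℝ) ≤ z then rts p n else ∅) (rts p m)
  unfold RR
  exact_mod_cast this

open Classical in
lemma prod_RR_le {z z' : ℝ} (hz : z ≤ z') {n m : ℕ}
    (hd : ∀ p : ℕ, p.Prime → ∀ b, ¬ (qs p b n = 0 ∧ qs p b m = 0)) :
    ∏ p ∈ pz z', (1 - (#(RR z n m p) : ℝ) / p) ≤ Pn z n * Pn z' m := by
  set B1 : ℕ → Finset ℕ := fun p => if (p : ℝ) ≤ z then rts p n else ∅ with hB1
  have hB1s : ∀ p, B1 p ⊆ range p := by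
    intro p
    simp only [hB1]
    split_ifs
    · exact rts_sub p n
    · simp
  have e : ∀ p, RR z n m p = B1 p ∪ rts p m := fun p => rfl
  have h2 : Pn z n = ∏ p ∈ pz z', (1 - (#(B1 p) : ℝ) / p) := by
    unfold Pn
    have hsub : pz z ⊆ pz z' := fun p hp => by
      rw [mem_pz] at hp ⊢
      exact ⟨hp.1, hp.2.trans hz⟩
    rw [← prod_subset hsub fun p hp hp' => ?_]
    · refine prod_congr rfl fun p hp => ?_
      simp only [hB1]
      rw [if_pos (mem_pz.1 hp).2]
    · simp only [hB1]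
      rw [if_neg fun h3 => hp' (mem_pz.2 ⟨(mem_pz.1 hp).1, h3⟩)]
      simp
  rw [h2]
  unfold Pn
  rw [← prod_mul_distrib]
  refine prod_le_prod (fun p hp => ?_) fun p hp => ?_
  · have hp1 := (mem_pz.1 hp).1
    have hp0 : (0 : ℝ) < p := by exact_mod_cast hp1.pos
    have h3 : #(RR z n m p) ≤ p := by
      have := card_le_card (RR_sub z n m p)
      rwa [card_range] at this
    have h4 : (#(RR z n m p) : ℝ) / p ≤ 1 := by
      rw [div_le_one hp0]
      exact_mod_cast h3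
    linarith
  · have hp1 := (mem_pz.1 hp).1
    have hp0 : (0 : ℝ) < p := by exact_mod_cast hp1.pos
    have hdis : Disjoint (B1 p) (rts p m) := by
      rw [Finset.disjoint_left]
      intro b hb hb'
      simp only [hB1] at hb
      split_ifs at hb with h3
      · unfold rts at hb hb'
        exact hd p hp1 b ⟨(mem_filter.1 hb).2, (mem_filter.1 hb').2⟩
      · simp at hb
    rw [e, card_union_of_disjoint hdis]
    push_cast
    have h5 : (0 : ℝ) ≤ (#(B1 p) : ℝ) / p * ((#(rts p m) : ℝ) / p) := by positivity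
    have h6 : ((#(B1 p) : ℝ) + #(rts p m)) / p = (#(B1 p) : ℝ) / p + (#(rts p m) : ℝ) / p := add_div _ _ _
    rw [h6]
    nlinarith

lemma mem_rts_mod {p n b : ℕ} (hp : 0 < p) : b % p ∈ rts p n ↔ qs p b n = 0 := by
  unfold rts
  rw [mem_filter, mem_range, qs_mod]
  exact and_iff_right (Nat.mod_lt b hp)

lemma Sv_const_iff {z : ℝ} {b n : ℕ} : Sv z (fun _ => b) n ↔ ∀ p ∈ pz z, b % p ∉ rts p n := by
  rw [Sv_iff']
  refine forall₂_congr fun p hp => ?_
  rw [mem_rts_mod (mem_pz.1 hp).1.pos]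

open Classical in
lemma Sv_const_iff2 {z z' : ℝ} (hz : z ≤ z') {b n m : ℕ} :
    (Sv z (fun _ => b) n ∧ Sv z' (fun _ => b) m) ↔ ∀ p ∈ pz z', b % p ∉ RR z n m p := by
  rw [Sv_const_iff, Sv_const_iff]
  constructor
  · rintro ⟨h1, h2⟩ p hp
    unfold RR
    rw [mem_union, not_or]
    refine ⟨?_, h2 p hp⟩
    split_ifs with h3
    · exact h1 p (mem_pz.2 ⟨(mem_pz.1 hp).1, h3⟩)
    · simp
  · intro h1
    refine ⟨fun p hp hpX => ?_, fun p hp hpX => h1 p hp (mem_union_right _ hpX)⟩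
    rw [mem_pz] at hp
    refine h1 p (mem_pz.2 ⟨hp.1, hp.2.trans hz⟩) (mem_union_left _ ?_)
    rw [if_pos hp.2]
    exact hpX

lemma second_count (B N : ℕ) (I : ℕ → ℕ → ℝ) (hI : ∀ n b, I n b * I n b = I n b) (p : ℕ → ℝ)
    (hp : ∀ n, p n ≤ 1) (hp0 : ∀ n, 0 ≤ p n) (δ : ℝ) (h0 : 0 ≤ δ) (hδ : δ * (N : ℝ) ^ 2 ≤ 1)
    (h1 : ∀ n < N, |∑ b ∈ range B, I n b - B * p n| ≤ B * δ)
    (h2 : ∀ n < N, ∀ m < N, n ≠ m → ∑ b ∈ range B, I n b * I m b ≤ B * (p n * p m + δ))
    (E : ℝ) (hE : E = ∑ n ∈ range N, p n) (hE1 : 1 ≤ E) (ε : ℝ) (hε : 0 < ε) :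
    (#((range B).filter fun b => ε * E ≤ |∑ n ∈ range N, I n b - E|) : ℝ) ≤ 4 * B / (ε ^ 2 * E) := by
  classical
  set Y : ℕ → ℝ := fun b => ∑ n ∈ range N, I n b with hY
  have hEN : E ≤ N := by
    rw [hE]
    refine (sum_le_sum fun n _ => hp n).trans ?_
    simp
  have hB0 : (0 : ℝ) ≤ B := Nat.cast_nonneg B
  have hY1 : B * E - B * (N * δ) ≤ ∑ b ∈ range B, Y b := by
    have e : ∑ b ∈ range B, Y b = ∑ n ∈ range N, ∑ b ∈ range B, I n b := sum_comm
    rw [e]
    have h3 : ∑ n ∈ range N, (B * p n - B * δ) ≤ ∑ n ∈ range N, ∑ b ∈ range B, I n b := by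
      refine sum_le_sum fun n hn => ?_
      have := (abs_le.1 (h1 n (mem_range.1 hn))).1
      linarith
    refine le_trans (le_of_eq ?_) h3
    rw [sum_sub_distrib, ← mul_sum, ← hE, sum_const, card_range, nsmul_eq_mul]
    ring
  have hY2 : ∑ b ∈ range B, Y b ^ 2 ≤ B * (E + E ^ 2 + (N : ℝ) ^ 2 * δ) := by
    have e : ∑ b ∈ range B, Y b ^ 2 = ∑ n ∈ range N, ∑ m ∈ range N, ∑ b ∈ range B, I n b * I m b := by
      have e1 : ∀ b, Y b ^ 2 = ∑ n ∈ range N, ∑ m ∈ range N, I n b * I m b := by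
        intro b
        rw [sq, hY]
        exact sum_mul_sum _ _ _ _
      simp_rw [e1]
      rw [sum_comm]
      exact sum_congr rfl fun n _ => sum_comm
    rw [e]
    have h3 : ∀ n ∈ range N, ∑ m ∈ range N, ∑ b ∈ range B, I n b * I m b ≤
        B * p n + B * p n * E + B * (N * δ) := by
      intro n hn
      rw [← add_sum_erase _ _ hn]
      have h4 : ∑ b ∈ range B, I n b * I n b ≤ B * (p n + δ) := by
        have := (abs_le.1 (h1 n (mem_range.1 hn))).2
        simp_rw [hI]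
        linarith
      have h5 : ∑ m ∈ (range N).erase n, ∑ b ∈ range B, I n b * I m b ≤
          ∑ m ∈ (range N).erase n, B * (p n * p m + δ) := by
        refine sum_le_sum fun m hm => ?_
        exact h2 n (mem_range.1 hn) m (mem_range.1 (mem_of_mem_erase hm)) (ne_of_mem_erase hm).symm
      have h6 : ∑ m ∈ (range N).erase n, B * (p n * p m + δ) + B * δ ≤
          ∑ m ∈ range N, B * (p n * p m + δ) := by
        rw [← add_sum_erase _ (fun m => B * (p n * p m + δ)) hn]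
        have : 0 ≤ B * (p n * p n) := by
          have := hp0 n
          positivity
        linarith
      have h7 : ∑ m ∈ range N, B * (p n * p m + δ) = B * p n * E + B * (N * δ) := by
        rw [← mul_sum, sum_add_distrib, ← mul_sum, ← hE, sum_const, card_range, nsmul_eq_mul]
        ring
      linarith
    refine (sum_le_sum h3).trans (le_of_eq ?_)
    rw [sum_add_distrib, sum_add_distrib, ← mul_sum, ← sum_mul, ← mul_sum, ← hE, sum_const, card_range,
      nsmul_eq_mul]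
    ring
  have hV : ∑ b ∈ range B, (Y b - E) ^ 2 ≤ 4 * B * E := by
    have e : ∑ b ∈ range B, (Y b - E) ^ 2 = ∑ b ∈ range B, Y b ^ 2 - 2 * E * ∑ b ∈ range B, Y b + B * E ^ 2 := by
      rw [mul_sum, ← sum_sub_distrib]
      have : (B : ℝ) * E ^ 2 = ∑ _b ∈ range B, E ^ 2 := by
        rw [sum_const, card_range, nsmul_eq_mul]
      rw [this, ← sum_add_distrib]
      exact sum_congr rfl fun b _ => by ring
    rw [e]
    have h3 : 2 * E * (B * E - B * (N * δ)) ≤ 2 * E * ∑ b ∈ range B, Y b :=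
      mul_le_mul_of_nonneg_left hY1 (by linarith)
    have h4 : E * (N * δ) ≤ 1 := by
      calc E * (N * δ) ≤ N * (N * δ) := mul_le_mul_of_nonneg_right hEN (by positivity)
        _ = δ * (N : ℝ) ^ 2 := by ring
        _ ≤ 1 := hδ
    have h5 : B * (E * (N * δ)) ≤ B * 1 := mul_le_mul_of_nonneg_left h4 hB0
    have h6 : B * ((N : ℝ) ^ 2 * δ) ≤ B * 1 := mul_le_mul_of_nonneg_left (by linarith) hB0
    have h7 : B * 1 ≤ B * E := mul_le_mul_of_nonneg_left hE1 hB0
    nlinarith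
  set F := (range B).filter fun b => ε * E ≤ |∑ n ∈ range N, I n b - E| with hF
  have hE0 : 0 < E := by linarith
  have h8 : (#F : ℝ) * (ε * E) ^ 2 ≤ ∑ b ∈ range B, (Y b - E) ^ 2 := by
    calc (#F : ℝ) * (ε * E) ^ 2 = ∑ _b ∈ F, (ε * E) ^ 2 := by rw [sum_const, nsmul_eq_mul]
      _ ≤ ∑ b ∈ F, (Y b - E) ^ 2 := by
          refine sum_le_sum fun b hb => ?_
          have h9 : ε * E ≤ |Y b - E| := (mem_filter.1 hb).2
          rw [← sq_abs (Y b - E)]
          exact pow_le_pow_left₀ (by positivity) h9 2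
      _ ≤ ∑ b ∈ range B, (Y b - E) ^ 2 :=
          sum_le_sum_of_subset_of_nonneg (filter_subset _ _) fun _ _ _ => sq_nonneg _
  rw [le_div_iff₀ (by positivity)]
  have h9 : (#F : ℝ) * (ε ^ 2 * E) * E ≤ 4 * B * E := by
    calc (#F : ℝ) * (ε ^ 2 * E) * E = (#F : ℝ) * (ε * E) ^ 2 := by ring
      _ ≤ _ := h8
      _ ≤ _ := hV
  exact le_of_mul_le_mul_right h9 hE0

end Pool.Agent.L5helper86.RB
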